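import Pool.Agent.Helper17.QD.Glue

/-!
# Project QD (MP_d112a4_gt), glue, module FAI: Fuchsian representations are faithful modulo signs
-/

set_option autoImplicit false

namespace Pool.Agent.Helper99.QL

open Pool.Agent.Helper17.QD Pool.Agent.Helper35.PM
open Pool.Agent.Helper20.QD (Fuch)

private theorem FAI_pow {Γ : Type} [Group Γ]
    (htf : ∀ (γ : Γ) (n : ℕ), 1 ≤ n → γ ^ n = 1 → γ = 1) (γ : Γ) {m n : ℕ} (h : m < n)
    (he : γ ^ (2 * m) = γ ^ (2 * n)) : γ = 1 := by
  refine htf γ (2 * n - 2 * m) (by omega) ?_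
  have h2 : γ ^ (2 * m) * γ ^ (2 * n - 2 * m) = γ ^ (2 * m) * 1 := by
    rw [← pow_add, Nat.add_sub_cancel' (by omega), mul_one, he]
  exact mul_left_cancel h2

theorem hFAI : StFAI := by
  intro Γ _ σ hF htf γ hγ
  have hsq : σ γ ^ 2 = 1 := by
    apply Subtype.ext
    rw [Matrix.SpecialLinearGroup.coe_pow, Matrix.SpecialLinearGroup.coe_one, pow_two]
    rcases hγ with h | h
    · rw [h, one_mul]
    · rw [h, neg_mul_neg, one_mul]
  have hone : ∀ n : ℕ, σ (γ ^ (2 * n)) = 1 := by
    intro n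
    rw [map_pow, pow_mul, hsq, one_pow]
  have hni : ¬ Function.Injective (fun n : ℕ => γ ^ (2 * n)) := by
    intro hi
    refine Set.infinite_range_of_injective hi ((hF.discrete 2).subset ?_)
    rintro _ ⟨n, rfl⟩
    show hs (σ (γ ^ (2 * n)) : Mat) ≤ 2
    rw [hone, Matrix.SpecialLinearGroup.coe_one]
    unfold hs
    rw [Fin.sum_univ_two, Fin.sum_univ_two, Fin.sum_univ_two]
    simp
    norm_num
  by_contra hne
  apply hni
  intro m n hmn
  rcases lt_trichotomy m n with h | h | h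
  · exact absurd (FAI_pow htf γ h hmn) hne
  · exact h
  · exact absurd (FAI_pow htf γ h hmn.symm) hne

end Pool.Agent.Helper99.QL
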