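import Pool.Agent.Helper17.QD.Glue
import Pool.Agent.Helper35.PQF.St

/-!
# Project QD (MP_d112a4_gt), glue, module MVD: the distance estimate
-/

set_option autoImplicit false

open Filter Topology Matrix Set Metric MeasureTheory
open scoped ComplexConjugate ComplexOrder ENNReal

namespace Pool.Agent.Helper99.QL

open Pool.Agent.Helper17.QD Pool.Agent.Helper35.PM
open Pool.Agent.Helper68.QC (nq Bel InvB Intw)
open Pool.Agent.Helper20.QD (Fuch cj IsSU D DD SS dz dzb mob den)
open Pool.Agent.Helper68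

private theorem MVD_den (A : SL) (hA : IsSU A) (y : ℂ) :
    ‖QC.den A y‖ ^ 2 - ‖A 0 0 * y + A 0 1‖ ^ 2 = 1 - ‖y‖ ^ 2 := by
  have h := A.det_coe
  rw [Matrix.det_fin_two, hA.1, hA.2, Complex.mul_conj, Complex.mul_conj] at h
  have h' : Complex.normSq (A 0 0) - Complex.normSq (A 0 1) = 1 := by exact_mod_cast h
  have e : QC.den A y = conj (A 0 1) * y + conj (A 0 0) := by
    unfold QC.den
    rw [hA.1, hA.2]
  rw [e]
  clear h e hA
  generalize A 0 0 = a at *
  generalize A 0 1 = b at *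
  rw [Complex.normSq_apply, Complex.normSq_apply] at h'
  rw [← Complex.normSq_eq_norm_sq, ← Complex.normSq_eq_norm_sq, ← Complex.normSq_eq_norm_sq,
    Complex.normSq_apply, Complex.normSq_apply, Complex.normSq_apply]
  simp only [Complex.add_re, Complex.add_im, Complex.mul_re, Complex.mul_im, Complex.conj_re,
    Complex.conj_im]
  linear_combination (1 - (y.re * y.re + y.im * y.im)) * h'

private theorem MVD_iff (A : SL) (hA : IsSU A) (y : ℂ) (hd : QC.den A y ≠ 0) :
    1 < ‖QC.mob A y‖ ↔ 1 < ‖y‖ := by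
  have h := MVD_den A hA y
  have hp : 0 < ‖QC.den A y‖ := norm_pos_iff.2 hd
  have hn : ‖QC.mob A y‖ = ‖A 0 0 * y + A 0 1‖ / ‖QC.den A y‖ := by
    unfold QC.mob
    rw [norm_div]
  rw [hn, one_lt_div hp]
  have h0 := norm_nonneg (A 0 0 * y + A 0 1)
  have h1 := norm_nonneg y
  constructor
  · intro hlt
    by_contra hle
    nlinarith
  · intro hlt
    by_contra hle
    nlinarith

private theorem MVD_ae (A : SL) : ∀ᵐ z : ℂ, QC.den A z ≠ 0 := by
  have hsub : {z : ℂ | QC.den A z = 0}.Subsingleton := by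
    intro x hx y hy
    have hx' : A 1 0 * x + A 1 1 = 0 := hx
    have hy' : A 1 0 * y + A 1 1 = 0 := hy
    by_cases h10 : A 1 0 = 0
    · exfalso
      have h11 : A 1 1 = 0 := by
        rw [h10, zero_mul, zero_add] at hx'
        exact hx'
      have hdet := A.det_coe
      rw [Matrix.det_fin_two, h10, h11, mul_zero, mul_zero, sub_zero] at hdet
      exact zero_ne_one hdet
    · have h : A 1 0 * x = A 1 0 * y := by linear_combination hx' - hy'
      exact mul_left_cancel₀ h10 h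
  have hfin : {z : ℂ | QC.den A z = 0}.Finite := hsub.finite
  exact hfin.countable.ae_notMem volume

private theorem MVD_zt {t : ℝ} (h0 : 0 ≤ t) (h1 : t < 1) : ∃ L : ℝ, 0 ≤ L ∧ zt L = (t : ℂ) := by
  obtain ⟨L, hL⟩ : ∃ L, L = Real.log ((1 + t) / (1 - t)) := ⟨_, rfl⟩
  have h2 : 0 < 1 - t := by linarith
  have h3 : 1 ≤ (1 + t) / (1 - t) := by
    rw [le_div_iff₀ h2]
    linarith
  refine ⟨L, by rw [hL]; exact Real.log_nonneg h3, ?_⟩
  unfold zt
  congr 1
  have hE : Real.exp L = (1 + t) / (1 - t) := by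
    rw [hL, Real.exp_log (by positivity)]
  have he : Real.exp (L / 2) * Real.exp (L / 2) = Real.exp L := by
    rw [← Real.exp_add]
    ring_nf
  have hp := Real.exp_pos (L / 2)
  rw [Real.tanh_eq_sinh_div_cosh, Real.sinh_eq, Real.cosh_eq, Real.exp_neg]
  generalize Real.exp (L / 2) = x at *
  have hx : x * x * (1 - t) = 1 + t := by
    rw [he, hE, div_mul_cancel₀ _ h2.ne']
  have hx2 : 0 < x + x⁻¹ := by positivity
  rw [div_div_div_cancel_right₀ (by norm_num), div_eq_iff hx2.ne']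
  field_simp
  linear_combination hx

open Classical in
/-- the family of coefficients -/
private noncomputable def MVD_m (r : ℝ) (μ κ : ℂ → ℂ) (t z : ℂ) : ℂ :=
  if 1 < ‖z‖ then (t / (r : ℂ)) * κ z else μ z

theorem hMVD (hQFS : StQFS) (hREP : QC.StREP) (hF1 : St_F1) (hQF : St_QF) : StMVD := by
  intro k0 hk0 hk1
  obtain ⟨r, hr⟩ : ∃ r, r = (1 + k0) / 2 := ⟨_, rfl⟩
  have hr0 : 0 < r := by linarith
  have hr1 : r < 1 := by linarith
  have hrC : (r : ℂ) ≠ 0 := by exact_mod_cast hr0.ne'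
  obtain ⟨L, hL, hzL⟩ := MVD_zt hr0.le hr1
  refine ⟨Real.sqrt (2 / 2 * L * (L + 2)), Real.sqrt_nonneg _, ?_⟩
  intro g hg U hU σ ρ μ κ k hS hκ hiκ
  have hK : max k (k0 / r) < 1 := by
    apply max_lt hS.k1
    rw [div_lt_one hr0]
    linarith
  have hbel : ∀ t ∈ Metric.ball (0 : ℂ) 1, Bel (max k (k0 / r)) (MVD_m r μ κ t) := by
    intro t ht
    have ht1 : ‖t‖ < 1 := mem_ball_zero_iff.1 ht
    constructor
    · unfold MVD_m
      exact Measurable.ite (measurableSet_lt measurable_const measurable_norm)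
        (hκ.meas.const_mul _) hS.bel.meas
    · intro z
      unfold MVD_m
      split_ifs with hz
      · refine le_trans ?_ (le_max_right _ _)
        rw [norm_mul, norm_div, Complex.norm_real, Real.norm_eq_abs, abs_of_pos hr0]
        calc ‖t‖ / r * ‖κ z‖ ≤ 1 / r * k0 := by
              have := hκ.le z
              gcongr
          _ = k0 / r := by ring
      · exact (hS.bel.le z).trans (le_max_left _ _)
  have hdiff : ∀ z, DifferentiableOn ℂ (fun t => MVD_m r μ κ t z) (Metric.ball 0 1) := by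
    intro z
    unfold MVD_m
    split_ifs with hz
    · fun_prop
    · fun_prop
  have hinv : ∀ t ∈ Metric.ball (0 : ℂ) 1, ∀ γ, InvB (σ γ) (MVD_m r μ κ t) := by
    intro t _ γ
    filter_upwards [hS.inv γ, hiκ γ, MVD_ae (σ γ)] with z h1 h2 h3
    have hiff := MVD_iff (σ γ) (hS.fs.su γ) z h3
    unfold MVD_m
    by_cases hz : 1 < ‖z‖
    · rw [if_pos hz, if_pos (hiff.2 hz), mul_assoc, h2, mul_assoc]
    · rw [if_neg hz, if_neg (fun h => hz (hiff.1 h))]
      exact h1
  have hm0 : MVD_m r μ κ 0 = μ := by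
    funext z
    unfold MVD_m
    split_ifs with hz
    · rw [zero_div, zero_mul, hS.out0 z hz.le]
    · rfl
  have hmr : MVD_m r μ κ (r : ℂ) = mix μ κ := by
    funext z
    unfold MVD_m mix
    rw [div_self hrC, one_mul]
  obtain ⟨f, hf0, hfd, hfi⟩ := hREP _ hK 0 1 (MVD_m r μ κ) hbel hdiff (SurfaceGroup g) _ σ ρ hinv
    (by rw [hm0]; exact hS.int) one_pos
  have hHol : HolDisc f :=
    ⟨fun γ i j => hfd γ i j,
      fun z hz => hQFS g σ (f z) (nq (MVD_m r μ κ z)) hS.fs (nq (MVD_m r μ κ z)).isHomeomorph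
        (hfi z hz)⟩
  have hzb : ∀ t : ℝ, zt t ∈ Metric.ball (0 : ℂ) 1 := by
    intro t
    rw [mem_ball_zero_iff]
    unfold zt
    rw [Complex.norm_real, Real.norm_eq_abs, abs_lt]
    exact ⟨Real.neg_one_lt_tanh _, Real.tanh_lt_one _⟩
  have hfin := (hF1 g hg U hU f hHol L 2 hL (fun t _ => by
    have := (hQF g hg (f (zt t)) (hHol.2 _ (hzb t))).2.1
    linarith)).2
  refine ⟨f (zt L), ?_, ?_⟩
  · intro γ
    rw [← hmr, ← hzL]
    exact hfi _ (hzb L) γ
  · rw [hf0] at hfin
    exact hfin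

end Pool.Agent.Helper99.QL
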